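import Pool.Agent.Q295.Anch.Geo

/-!
# Deterministic consequences of the grid configuration
-/

set_option autoImplicit false

open UpperHalfPlane Real MeasureTheory
open Pool.Agent.Y979.HV

namespace Q295.Anch

noncomputable section

/-- the inner part of the region covered by the grid -/
def inn (S t : ℝ) : Set ℍ :=
  {z | (t * S ≤ z.re ∧ z.re ≤ (1 - t) * S) ∧ ((1 + t) * S ≤ z.im ∧ z.im ≤ (2 - t) * S)}

theorem inn_subset_big {S t : ℝ} (hS : 0 < S) (ht : 0 < t) : inn S t ⊆ big S := by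
  rintro z ⟨⟨h1, h2⟩, h3, h4⟩
  have : 0 < t * S := by positivity
  refine ⟨⟨?_, ?_⟩, ?_, ?_⟩ <;> nlinarith

theorem inn_anti {S s t : ℝ} (hS : 0 < S) (hst : s ≤ t) : inn S t ⊆ inn S s := by
  rintro z ⟨⟨h1, h2⟩, h3, h4⟩
  refine ⟨⟨?_, ?_⟩, ?_, ?_⟩ <;> nlinarith

theorem inn_of_close {S t r : ℝ} (hS : 0 < S) (ht : 0 ≤ t) {u y : ℍ} (hu : u ∈ inn S t)
    (hd : dist y u ≤ r) (hr : r ≤ 1) : y ∈ inn S (t - 4 * r) := by
  obtain ⟨⟨h1, h2⟩, h3, h4⟩ := hu
  have hui : u.im ≤ 2 * S := by nlinarith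
  obtain ⟨e1, e2⟩ := coord_close hui (hd.trans hr)
  have e3 : 4 * S * dist y u ≤ 4 * S * r := mul_le_mul_of_nonneg_left hd (by linarith)
  rw [abs_le] at e1 e2
  refine ⟨⟨?_, ?_⟩, ?_, ?_⟩ <;> nlinarith

theorem near_nucleus {A : Set ℍ} {S : ℝ} (hS : 0 < S) {n : ℕ} (hn : 0 < n) (hG : GridOK A S n)
    {z u : ℍ} (hz : z ∈ big S) (hu : z ∈ cell A u) : dist z u ≤ 2 / n := by
  obtain ⟨i, hi⟩ := exists_gcell hS hn hz
  have h1 : (A ∩ gcell S n i).Nonempty := by
    rw [← Set.encard_ne_zero, hG i]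
    exact one_ne_zero
  obtain ⟨y, hyA, hy⟩ := h1
  exact (hu y hyA).trans (dist_gcell hS hn hi hy)

theorem adj_close {A : Set ℍ} {S : ℝ} (hS : 0 < S) {n : ℕ} (hn : 100 < n) (hG : GridOK A S n)
    {u v : A} (hu : (u : ℍ) ∈ inn S (1 / 10)) (huv : (voronoiGraph A).Adj u v) :
    dist (u : ℍ) v ≤ 4 / n := by
  have hn0 : 0 < n := by omega
  have hn1 : (100 : ℝ) < n := by exact_mod_cast hn
  have hη : (2 : ℝ) / n < 1 / 50 := by
    rw [div_lt_div_iff₀ (by linarith) (by norm_num)]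
    linarith
  obtain ⟨z, hzu, hzv⟩ := exists_touch huv
  rcases le_or_gt (dist (u : ℍ) z) (1 / 50) with h | h
  · have hzb : z ∈ big S := by
      refine inn_subset_big (t := 1 / 10 - 4 * (1 / 50)) hS (by norm_num) ?_
      exact inn_of_close hS (by norm_num) hu (by rw [dist_comm]; exact h) (by norm_num)
    have h1 := near_nucleus hS hn0 hG hzb hzu
    have h2 := near_nucleus hS hn0 hG hzb hzv
    have h3 := dist_triangle (u : ℍ) z v
    rw [dist_comm (u : ℍ) z] at h3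
    have h4 : (4 : ℝ) / n = 2 / n + 2 / n := by ring
    linarith
  · exfalso
    obtain ⟨y, hy1, hy2⟩ := exists_on_segment (z := (u : ℍ)) (w := z) (s := 1 / 50) (by norm_num) h.le
    have hyc : y ∈ cell A u := mem_cell_of_between hzu (by rw [hy1, hy2]; ring)
    have hyb : y ∈ big S := by
      refine inn_subset_big (t := 1 / 10 - 4 * (1 / 50)) hS (by norm_num) ?_
      exact inn_of_close hS (by norm_num) hu (by rw [dist_comm, hy1]) (by norm_num)
    have h1 := near_nucleus hS hn0 hG hyb hyc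
    rw [dist_comm, hy1] at h1
    linarith

theorem walk_close {A : Set ℍ} {S : ℝ} (hS : 0 < S) {n : ℕ} (hn : 100 < n) (hG : GridOK A S n)
    {u v : A} (hu : (u : ℍ) ∈ inn S (3 / 20)) (w : (voronoiGraph A).Walk u v)
    (hw : 4 / (n : ℝ) * w.length ≤ 1 / 80) : dist (u : ℍ) v ≤ 4 / n * w.length := by
  have hn1 : (100 : ℝ) < n := by exact_mod_cast hn
  have key : ∀ i : ℕ, i ≤ w.length → dist (u : ℍ) (w.getVert i) ≤ 4 / n * i := by
    intro i
    induction i with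
    | zero => intro _; simp
    | succ i ih =>
      intro hi
      have h1 := ih (by omega)
      have h2 : (4 : ℝ) / n * i ≤ 4 / n * w.length := by
        apply mul_le_mul_of_nonneg_left _ (by positivity)
        exact_mod_cast (by omega : i ≤ w.length)
      have h3 : ((w.getVert i : A) : ℍ) ∈ inn S (1 / 10) := by
        have := inn_of_close (r := 1 / 80) hS (by norm_num) hu
          (by rw [dist_comm]; exact h1.trans (h2.trans hw)) (by norm_num)
        exact inn_anti hS (by norm_num) this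
      have h4 := adj_close hS hn hG h3 (w.adj_getVert_succ (by omega))
      have h5 := dist_triangle (u : ℍ) (w.getVert i) (w.getVert (i + 1))
      push_cast
      linarith
  have := key w.length le_rfl
  rwa [w.getVert_length] at this

/-! ### The routes -/

/-- a route around the centre -/
def route (S x1 x2 x3 x4 : ℝ) : Set ℍ :=
  (rct (x1 * S) (x2 * S) (17 / 10 * S) (18 / 10 * S) ∪
    rct (x3 * S) (x4 * S) (12 / 10 * S) (18 / 10 * S)) ∪
    rct (x1 * S) (x2 * S) (12 / 10 * S) (13 / 10 * S)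

theorem isOpen_route (S x1 x2 x3 x4 : ℝ) : IsOpen (route S x1 x2 x3 x4) :=
  ((isOpen_rct _ _ _ _).union (isOpen_rct _ _ _ _)).union (isOpen_rct _ _ _ _)

theorem route_preconnected {S x1 x2 x3 x4 : ℝ} (hS : 0 < S) (h13 : x1 ≤ x3) (h34 : x3 < x4)
    (h42 : x4 ≤ x2) (B : Set ℍ) (hB : B.Finite) : IsPreconnected (route S x1 x2 x3 x4 \ B) := by
  have h12 : x1 < x2 := by linarith
  have m12 : x1 * S < x2 * S := mul_lt_mul_of_pos_right h12 hS
  have m34 : x3 * S < x4 * S := mul_lt_mul_of_pos_right h34 hS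
  have m13 : x1 * S ≤ x3 * S := mul_le_mul_of_nonneg_right h13 hS.le
  have m42 : x4 * S ≤ x2 * S := mul_le_mul_of_nonneg_right h42 hS.le
  have p1 : ∀ B : Set ℍ, B.Finite →
      IsPreconnected (rct (x1 * S) (x2 * S) (17 / 10 * S) (18 / 10 * S) \ B) := fun B hB =>
    rct_diff_preconnected m12 (by positivity) (by linarith) hB
  have p2 : ∀ B : Set ℍ, B.Finite →
      IsPreconnected (rct (x3 * S) (x4 * S) (12 / 10 * S) (18 / 10 * S) \ B) := fun B hB =>
    rct_diff_preconnected m34 (by positivity) (by linarith) hB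
  have p3 : ∀ B : Set ℍ, B.Finite →
      IsPreconnected (rct (x1 * S) (x2 * S) (12 / 10 * S) (13 / 10 * S) \ B) := fun B hB =>
    rct_diff_preconnected m12 (by positivity) (by linarith) hB
  refine union_diff_preconnected (a := x3 * S) (b := x4 * S) (c := 12 / 10 * S) (d := 13 / 10 * S)
    m34 (by positivity) (by linarith) ?_ p3 ?_ ?_ B hB
  · refine union_diff_preconnected (a := x3 * S) (b := x4 * S) (c := 17 / 10 * S)
      (d := 18 / 10 * S) m34 (by positivity) (by linarith) p1 p2 ?_ ?_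
    · rintro z ⟨⟨h1, h2⟩, h3, h4⟩
      exact ⟨⟨by linarith, by linarith⟩, h3, h4⟩
    · rintro z ⟨⟨h1, h2⟩, h3, h4⟩
      exact ⟨⟨h1, h2⟩, by linarith, h4⟩
  · rintro z ⟨⟨h1, h2⟩, h3, h4⟩
    exact Or.inr ⟨⟨h1, h2⟩, h3, by linarith⟩
  · rintro z ⟨⟨h1, h2⟩, h3, h4⟩
    exact ⟨⟨by linarith, by linarith⟩, h3, h4⟩

theorem route_subset {S x1 x2 x3 x4 : ℝ} (hS : 0 < S) (h13 : x1 ≤ x3)
    (h42 : x4 ≤ x2) (h1 : 1 / 5 ≤ x1) (h2 : x2 ≤ 4 / 5) : route S x1 x2 x3 x4 ⊆ inn S (1 / 5) := by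
  have m13 : x1 * S ≤ x3 * S := mul_le_mul_of_nonneg_right h13 hS.le
  have m42 : x4 * S ≤ x2 * S := mul_le_mul_of_nonneg_right h42 hS.le
  have m1 : 1 / 5 * S ≤ x1 * S := mul_le_mul_of_nonneg_right h1 hS.le
  have m2 : x2 * S ≤ 4 / 5 * S := mul_le_mul_of_nonneg_right h2 hS.le
  rintro z ((⟨⟨a1, a2⟩, a3, a4⟩ | ⟨⟨a1, a2⟩, a3, a4⟩) | ⟨⟨a1, a2⟩, a3, a4⟩) <;>
  exact ⟨⟨by linarith, by linarith⟩, by linarith, by linarith⟩

/-- the number of nuclei in the region -/
theorem ncard_big {A : Set ℍ} {S : ℝ} (hS : 0 < S) {n : ℕ} (hn : 0 < n) (hG : GridOK A S n) :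
    (A ∩ big S).Finite ∧ (A ∩ big S).ncard ≤ n * n := by
  classical
  have h1 : ∀ i : Fin n × Fin n, ∃ y, A ∩ gcell S n i = {y} := fun i =>
    Set.encard_eq_one.mp (hG i)
  choose y hy using h1
  have hsub : A ∩ big S ⊆ (Finset.univ.image y : Finset ℍ) := by
    rintro z ⟨hzA, hz⟩
    obtain ⟨i, hi⟩ := exists_gcell hS hn hz
    have : z ∈ A ∩ gcell S n i := ⟨hzA, hi⟩
    rw [hy i, Set.mem_singleton_iff] at this
    rw [this, Finset.mem_coe]
    exact Finset.mem_image_of_mem y (Finset.mem_univ i)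
  refine ⟨(Finset.finite_toSet _).subset hsub, ?_⟩
  refine (Set.ncard_le_ncard hsub (Finset.finite_toSet _)).trans ?_
  rw [Set.ncard_coe_finset]
  refine Finset.card_image_le.trans ?_
  simp

theorem mem_meeting_inn {A : Set ℍ} {S : ℝ} (hS : 0 < S) {n : ℕ} (hn : 160 ≤ n)
    (hG : GridOK A S n) {U : Set ℍ} (hU : U ⊆ inn S (1 / 5)) {v : A} {z : ℍ} (hz : z ∈ U)
    (hzv : z ∈ cell A v) : (v : ℍ) ∈ inn S (3 / 20) ∧ dist z v ≤ 2 / n := by
  have h1 := near_nucleus hS (by omega) hG (inn_subset_big hS (by norm_num) (hU hz)) hzv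
  refine ⟨?_, h1⟩
  have hn1 : (160 : ℝ) ≤ n := by exact_mod_cast hn
  have hη : (2 : ℝ) / n ≤ 1 / 80 := by
    rw [div_le_div_iff₀ (by linarith) (by norm_num)]
    linarith
  have := inn_of_close (r := 1 / 80) hS (by norm_num) (hU hz)
    (by rw [dist_comm]; exact h1.trans hη) (by norm_num)
  exact inn_anti hS (by norm_num) this

theorem ncard_meeting {A : Set ℍ} {S : ℝ} (hS : 0 < S) {n : ℕ} (hn : 160 ≤ n)
    (hG : GridOK A S n) {U : Set ℍ} (hU : U ⊆ inn S (1 / 5)) :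
    (meeting A U).Finite ∧ (meeting A U).ncard ≤ n * n := by
  obtain ⟨h1, h2⟩ := ncard_big hS (show 0 < n by omega) hG
  have hsub : Subtype.val '' (meeting A U) ⊆ A ∩ big S := by
    rintro _ ⟨v, ⟨z, hz, hzv⟩, rfl⟩
    exact ⟨v.2, inn_subset_big hS (by norm_num) (mem_meeting_inn hS hn hG hU hz hzv).1⟩
  have hfin : (meeting A U).Finite :=
    Set.Finite.of_finite_image (h1.subset hsub) Subtype.val_injective.injOn
  refine ⟨hfin, ?_⟩
  rw [← Set.ncard_image_of_injective (meeting A U) Subtype.val_injective]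
  exact (Set.ncard_le_ncard hsub h1).trans h2

/-- a walk through the cells that meet a region -/
theorem exists_walk_in {A : Set ℍ} (hA : LocFin A) {U : Set ℍ} (hU : IsOpen U)
    (hUc : ∀ B : Set ℍ, B.Finite → IsPreconnected (U \ B)) (hF : (meeting A U).Finite)
    {x y : A} (hx : x ∈ meeting A U) (hy : y ∈ meeting A U) :
    ∃ p : (voronoiGraph A).Walk x y, p.length < (meeting A U).ncard ∧
      ∀ v ∈ p.support, v ∈ meeting A U := by
  obtain ⟨p, hp⟩ := (reachable_meeting hA hU hUc hF x y hx hy).exists_isPath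
  have : Fintype (meeting A U) := hF.fintype
  have h1 := hp.length_lt
  rw [← Nat.card_eq_fintype_card] at h1
  refine ⟨p.map (SimpleGraph.Embedding.induce (meeting A U)).toHom,
    lt_of_eq_of_lt (SimpleGraph.Walk.length_map _ _) h1, fun v hv => ?_⟩
  have e := SimpleGraph.Walk.support_map (SimpleGraph.Embedding.induce (meeting A U)).toHom p
  have hv' := (congrArg (v ∈ ·) e).mp hv
  obtain ⟨w, _, rfl⟩ := List.mem_map.mp hv'
  exact w.2

/-- position of a vertex at middle height that is close to a route -/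
theorem side {A : Set ℍ} {S : ℝ} (hS : 0 < S) {R n : ℕ} (hR : 0 < R) (hn : n = 1000 * R)
    (hG : GridOK A S n) (hcon : (voronoiGraph A).Connected) {x1 x2 x3 x4 : ℝ} (h13 : x1 ≤ x3)
    (h42 : x4 ≤ x2) (h1 : 1 / 5 ≤ x1) (h2 : x2 ≤ 4 / 5) {v m m' : A}
    (hv : v ∈ meeting A (route S x1 x2 x3 x4)) (hd : (voronoiGraph A).dist m v < R)
    (hmm : (voronoiGraph A).Adj m m') (hm : 3 / 2 * S < (m : ℍ).im) (hm' : (m' : ℍ).im ≤ 3 / 2 * S) :
    (x3 - 3 / 100) * S < (m : ℍ).re ∧ (m : ℍ).re < (x4 + 3 / 100) * S := by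
  have hR1 : (1 : ℝ) ≤ R := by exact_mod_cast hR
  have hnR : (n : ℝ) = 1000 * R := by rw [hn]; push_cast; ring
  have hn0 : (0 : ℝ) < n := by rw [hnR]; linarith
  have hηR : (4 : ℝ) / n * R = 1 / 250 := by
    rw [hnR]
    field_simp
    norm_num
  have hη : (4 : ℝ) / n ≤ 1 / 250 := by
    rw [div_le_div_iff₀ hn0 (by norm_num), hnR]
    linarith
  have hη2 : (2 : ℝ) / n ≤ 1 / 500 := by
    rw [div_le_div_iff₀ hn0 (by norm_num), hnR]
    linarith
  obtain ⟨z, hz, hzv⟩ := hv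
  obtain ⟨hvi, hzd⟩ := mem_meeting_inn hS (by omega) hG (route_subset hS h13 h42 h1 h2) hz hzv
  obtain ⟨w, hw⟩ := hcon.exists_walk_length_eq_dist v m
  rw [SimpleGraph.dist_comm] at hw
  have hwl : (4 : ℝ) / n * w.length ≤ 1 / 250 := by
    rw [← hηR]
    apply mul_le_mul_of_nonneg_left _ (by positivity)
    exact_mod_cast (by omega : w.length ≤ R)
  have hvm := walk_close hS (by omega) hG hvi w (hwl.trans (by norm_num))
  have hvm' : dist (v : ℍ) m ≤ 1 / 250 := hvm.trans hwl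
  have hmi : (m : ℍ) ∈ inn S (1 / 10) := by
    have := inn_of_close (r := 1 / 250) hS (by norm_num) hvi (by rw [dist_comm]; exact hvm')
      (by norm_num)
    exact inn_anti hS (by norm_num) this
  have hmd := adj_close hS (by omega) hG hmi hmm
  have hmim : (m : ℍ).im ≤ 2 * S := by
    obtain ⟨_, _, h⟩ := hmi
    linarith
  have hzm : dist z m ≤ 3 / 500 := by
    have := dist_triangle z v m
    linarith
  obtain ⟨c1, c2⟩ := coord_close hmim (hzm.trans (by norm_num))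
  have hd2 : dist (m' : ℍ) m ≤ 1 / 250 := by
    rw [dist_comm]
    linarith
  obtain ⟨_, c3⟩ := coord_close hmim (hd2.trans (by norm_num))
  have b1 : 4 * S * dist z m ≤ 4 * S * (3 / 500) := mul_le_mul_of_nonneg_left hzm (by linarith)
  have b2 : 4 * S * dist (m' : ℍ) m ≤ 4 * S * (1 / 250) :=
    mul_le_mul_of_nonneg_left hd2 (by linarith)
  rw [abs_le] at c1 c2 c3
  rcases hz with (⟨⟨a1, a2⟩, a3, a4⟩ | ⟨⟨a1, a2⟩, a3, a4⟩) | ⟨⟨a1, a2⟩, a3, a4⟩
  · exfalso
    linarith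
  · constructor <;> nlinarith
  · exfalso
    linarith

/-- the point of a given height -/
def pt (S y : ℝ) (hy : 0 < y * S) : ℍ := ⟨⟨1 / 2 * S, y * S⟩, hy⟩

/-- a geodesic that is far from another route -/
theorem exists_bad {A : Set ℍ} (hA : LocFin A) (hne : A.Nonempty) {S : ℝ} (hS : 0 < S) {R : ℕ}
    (hR : 0 < R) (hG : GridOK A S (1000 * R)) :
    ∃ (a c m : A) (p γ : (voronoiGraph A).Walk a c), p.length = (voronoiGraph A).dist a c ∧
      m ∈ p.support ∧ γ.length ≤ (1000 * R) * (1000 * R) ∧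
      ∀ v ∈ γ.support, R ≤ (voronoiGraph A).dist m v := by
  have hcon := connected_of_locFin hA hne
  set n := 1000 * R with hn
  have hR1 : (1 : ℝ) ≤ R := by exact_mod_cast hR
  have hnR : (n : ℝ) = 1000 * R := by rw [hn]; push_cast; ring
  have hn0 : (0 : ℝ) < n := by rw [hnR]; linarith
  have hη2 : (2 : ℝ) / n ≤ 1 / 500 := by
    rw [div_le_div_iff₀ hn0 (by norm_num), hnR]
    linarith
  set a0 : ℍ := pt S (7 / 4) (by positivity) with ha0
  set c0 : ℍ := pt S (5 / 4) (by positivity) with hc0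
  have ha0r : a0.re = 1 / 2 * S := rfl
  have ha0i : a0.im = 7 / 4 * S := rfl
  have hc0r : c0.re = 1 / 2 * S := rfl
  have hc0i : c0.im = 5 / 4 * S := rfl
  obtain ⟨a, haA, ha⟩ := exists_nucleus hA hne a0
  obtain ⟨c, hcA, hc⟩ := exists_nucleus hA hne c0
  have ha_mem : ∀ x1 x2 x3 x4 : ℝ, x1 < 1 / 2 → 1 / 2 < x2 → a0 ∈ route S x1 x2 x3 x4 := by
    intro x1 x2 x3 x4 h1 h2
    have m1 : x1 * S < 1 / 2 * S := mul_lt_mul_of_pos_right h1 hS
    have m2 : 1 / 2 * S < x2 * S := mul_lt_mul_of_pos_right h2 hS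
    refine Or.inl (Or.inl ⟨⟨?_, ?_⟩, ?_, ?_⟩)
    · rw [ha0r]; exact m1
    · rw [ha0r]; exact m2
    · rw [ha0i]; linarith
    · rw [ha0i]; linarith
  have hc_mem : ∀ x1 x2 x3 x4 : ℝ, x1 < 1 / 2 → 1 / 2 < x2 → c0 ∈ route S x1 x2 x3 x4 := by
    intro x1 x2 x3 x4 h1 h2
    have m1 : x1 * S < 1 / 2 * S := mul_lt_mul_of_pos_right h1 hS
    have m2 : 1 / 2 * S < x2 * S := mul_lt_mul_of_pos_right h2 hS
    refine Or.inr ⟨⟨?_, ?_⟩, ?_, ?_⟩
    · rw [hc0r]; exact m1
    · rw [hc0r]; exact m2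
    · rw [hc0i]; linarith
    · rw [hc0i]; linarith
  have hwalk : ∀ x1 x2 x3 x4 : ℝ, x1 ≤ x3 → x3 < x4 → x4 ≤ x2 → 1 / 5 ≤ x1 → x2 ≤ 4 / 5 →
      x1 < 1 / 2 → 1 / 2 < x2 → ∃ γ : (voronoiGraph A).Walk ⟨a, haA⟩ ⟨c, hcA⟩,
      γ.length ≤ n * n ∧ ∀ v ∈ γ.support, v ∈ meeting A (route S x1 x2 x3 x4) := by
    intro x1 x2 x3 x4 h13 h34 h42 h1 h2 h1' h2'
    obtain ⟨hfin, hcard⟩ := ncard_meeting hS (by omega) hG (route_subset hS h13 h42 h1 h2)
    obtain ⟨γ, hγ1, hγ2⟩ := exists_walk_in hA (isOpen_route S x1 x2 x3 x4)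
      (route_preconnected hS h13 h34 h42) hfin (x := ⟨a, haA⟩) (y := ⟨c, hcA⟩)
      ⟨a0, ha_mem _ _ _ _ h1' h2', ha⟩ ⟨c0, hc_mem _ _ _ _ h1' h2', hc⟩
    exact ⟨γ, by omega, hγ2⟩
  obtain ⟨p, hp⟩ := hcon.exists_walk_length_eq_dist (⟨a, haA⟩ : A) ⟨c, hcA⟩
  -- heights of the end points
  have ha0in : a0 ∈ inn S (1 / 5) := route_subset (x1 := 1 / 5) (x2 := 4 / 5) (x3 := 1 / 5)
    (x4 := 4 / 5) hS le_rfl le_rfl le_rfl le_rfl (ha_mem _ _ _ _ (by norm_num) (by norm_num))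
  have hc0in : c0 ∈ inn S (1 / 5) := route_subset (x1 := 1 / 5) (x2 := 4 / 5) (x3 := 1 / 5)
    (x4 := 4 / 5) hS le_rfl le_rfl le_rfl le_rfl (hc_mem _ _ _ _ (by norm_num) (by norm_num))
  have hda := near_nucleus hS (by omega) hG (inn_subset_big hS (by norm_num) ha0in) ha
  have hdc := near_nucleus hS (by omega) hG (inn_subset_big hS (by norm_num) hc0in) hc
  have hai : 3 / 2 * S < a.im := by
    have h1 : dist a a0 ≤ 1 / 500 := by rw [dist_comm]; linarith
    obtain ⟨_, h2⟩ := coord_close (S := S) (z := a) (w := a0) (by rw [ha0i]; linarith)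
      (h1.trans (by norm_num))
    have h3 : 4 * S * dist a a0 ≤ 4 * S * (1 / 500) := mul_le_mul_of_nonneg_left h1 (by linarith)
    rw [ha0i, abs_le] at h2
    linarith
  have hci : c.im < 3 / 2 * S := by
    have h1 : dist c c0 ≤ 1 / 500 := by rw [dist_comm]; linarith
    obtain ⟨_, h2⟩ := coord_close (S := S) (z := c) (w := c0) (by rw [hc0i]; linarith)
      (h1.trans (by norm_num))
    have h3 : 4 * S * dist c c0 ≤ 4 * S * (1 / 500) := mul_le_mul_of_nonneg_left h1 (by linarith)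
    rw [hc0i, abs_le] at h2
    linarith
  obtain ⟨d, hd, hd1, hd2⟩ := p.exists_boundary_dart {v : A | 3 / 2 * S < (v : ℍ).im} hai
    (by
      intro h
      have : 3 / 2 * S < c.im := h
      linarith)
  have hd2' : (d.snd : ℍ).im ≤ 3 / 2 * S := not_lt.mp hd2
  have hmem : d.fst ∈ p.support := p.dart_fst_mem_support_of_mem_darts hd
  by_cases hL : ∀ v ∈ meeting A (route S (3 / 10) (11 / 20) (3 / 10) (4 / 10)),
      R ≤ (voronoiGraph A).dist d.fst v
  · obtain ⟨γ, hγ1, hγ2⟩ := hwalk (3 / 10) (11 / 20) (3 / 10) (4 / 10) (by norm_num) (by norm_num)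
      (by norm_num) (by norm_num) (by norm_num) (by norm_num) (by norm_num)
    exact ⟨_, _, d.fst, p, γ, hp, hmem, hγ1, fun v hv => hL v (hγ2 v hv)⟩
  · by_cases hRt : ∀ v ∈ meeting A (route S (9 / 20) (7 / 10) (6 / 10) (7 / 10)),
      R ≤ (voronoiGraph A).dist d.fst v
    · obtain ⟨γ, hγ1, hγ2⟩ := hwalk (9 / 20) (7 / 10) (6 / 10) (7 / 10) (by norm_num)
        (by norm_num) (by norm_num) (by norm_num) (by norm_num) (by norm_num) (by norm_num)
      exact ⟨_, _, d.fst, p, γ, hp, hmem, hγ1, fun v hv => hRt v (hγ2 v hv)⟩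
    · exfalso
      push Not at hL hRt
      obtain ⟨v, hv, hvd⟩ := hL
      obtain ⟨w, hw, hwd⟩ := hRt
      have s1 := side hS hR hn hG hcon (by norm_num) (by norm_num) (by norm_num) (by norm_num) hv
        hvd d.adj hd1 hd2'
      have s2 := side hS hR hn hG hcon (by norm_num) (by norm_num) (by norm_num) (by norm_num) hw
        hwd d.adj hd1 hd2'
      have := s1.2
      have := s2.1
      linarith

end

end Q295.Anch
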