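import Mathlib

/-!
# Thin triangles with a fixed vertex force Gromov hyperbolicity

If all geodesic triangles of a connected graph that have the vertex `x` are `δ`-thin, then the
graph is Gromov hyperbolic, and a geodesic stays logarithmically close to every walk with the same
ends.
-/

set_option autoImplicit false

open SimpleGraph

namespace Q295.Anch

variable {V : Type*} {G : SimpleGraph V}

/-- The triangle with the sides `p : x → y`, `q : y → z`, `r : z → x` is `δ`-thin: every vertex of
a side is at graph distance at most `δ` from a vertex of one of the two other sides. -/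
def ThinTriangle (G : SimpleGraph V) (δ : ℝ) {x y z : V} (p : G.Walk x y) (q : G.Walk y z)
    (r : G.Walk z x) : Prop :=
  (∀ v ∈ p.support, ∃ w, (w ∈ q.support ∨ w ∈ r.support) ∧ (G.dist v w : ℝ) ≤ δ) ∧
  (∀ v ∈ q.support, ∃ w, (w ∈ r.support ∨ w ∈ p.support) ∧ (G.dist v w : ℝ) ≤ δ) ∧
  (∀ v ∈ r.support, ∃ w, (w ∈ p.support ∨ w ∈ q.support) ∧ (G.dist v w : ℝ) ≤ δ)

/-- All geodesic triangles that have the vertex `x` are `δ`-thin. -/
def AnchoredThin (G : SimpleGraph V) (x : V) (δ : ℝ) : Prop :=
  ∀ (y z : V) (p : G.Walk x y) (q : G.Walk y z) (r : G.Walk z x),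
    p.length = G.dist x y → q.length = G.dist y z → r.length = G.dist z x →
    ThinTriangle G δ p q r

theorem dist_getVert_succ (hG : G.Connected) {x y : V} (p : G.Walk x y) (s k : ℕ) :
    G.dist (p.getVert s) (p.getVert (s + k)) ≤ k := by
  induction k with
  | zero => simp
  | succ k ih =>
    have h1 : G.dist (p.getVert (s + k)) (p.getVert (s + k + 1)) ≤ 1 := by
      by_cases h : s + k < p.length
      · exact (SimpleGraph.dist_eq_one_iff_adj.mpr (p.adj_getVert_succ h)).le
      · rw [p.getVert_of_length_le (by omega), p.getVert_of_length_le (by omega)]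
        simp
    have h2 := hG.dist_triangle (u := p.getVert s) (v := p.getVert (s + k))
      (w := p.getVert (s + k + 1))
    rw [← add_assoc]
    omega

theorem dist_getVert_geod (hG : G.Connected) {x y : V} {p : G.Walk x y}
    (hp : p.length = G.dist x y) {t : ℕ} (ht : t ≤ G.dist x y) :
    G.dist x (p.getVert t) = t ∧ G.dist (p.getVert t) y = G.dist x y - t := by
  have h1 := dist_getVert_succ hG p 0 t
  have h2 := dist_getVert_succ hG p t (G.dist x y - t)
  rw [p.getVert_zero, zero_add] at h1
  rw [show t + (G.dist x y - t) = p.length by omega, p.getVert_length] at h2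
  have h3 := hG.dist_triangle (u := x) (v := p.getVert t) (w := y)
  omega

/-- two geodesics from `x` travel together -/
theorem fellow (hG : G.Connected) {x : V} {δ : ℕ} (hx : AnchoredThin G x δ) {y w : V}
    {p : G.Walk x y} {r : G.Walk x w} (hp : p.length = G.dist x y) (hr : r.length = G.dist x w)
    {t : ℕ} (ht : 2 * t + 2 * δ + G.dist y w < G.dist x y + G.dist x w) :
    G.dist (p.getVert t) (r.getVert t) ≤ 2 * δ := by
  obtain ⟨q, hq⟩ := hG.exists_walk_length_eq_dist y w
  have htri1 := hG.dist_triangle (u := x) (v := y) (w := w)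
  have htri2 := hG.dist_triangle (u := x) (v := w) (w := y)
  rw [G.dist_comm (u := w) (v := y)] at htri2
  have hty : t ≤ G.dist x y := by omega
  have htw : t ≤ G.dist x w := by omega
  have hthin := (hx y w p q r.reverse hp hq (by
    rw [SimpleGraph.Walk.length_reverse, hr, G.dist_comm])).1 (p.getVert t)
    (p.getVert_mem_support t)
  obtain ⟨w', hw', hd⟩ := hthin
  have hd' : G.dist (p.getVert t) w' ≤ δ := by exact_mod_cast hd
  obtain ⟨e1, e2⟩ := dist_getVert_geod hG hp hty
  obtain ⟨e3, e4⟩ := dist_getVert_geod hG hr htw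
  rcases hw' with hw' | hw'
  · obtain ⟨s, hs, hsl⟩ := SimpleGraph.Walk.mem_support_iff_exists_getVert.mp hw'
    obtain ⟨e5, e6⟩ := dist_getVert_geod hG hq (hsl.trans hq.le)
    rw [hs] at e5 e6
    have t1 := hG.dist_triangle (u := p.getVert t) (v := w') (w := y)
    have t2 := hG.dist_triangle (u := x) (v := p.getVert t) (w := w')
    have t3 := hG.dist_triangle (u := x) (v := w') (w := w)
    rw [G.dist_comm (u := w') (v := y)] at t1
    have t4 := hG.dist_triangle (u := x) (v := p.getVert t) (w := y)
    omega
  · rw [SimpleGraph.Walk.support_reverse, List.mem_reverse] at hw'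
    obtain ⟨s, hs, hsl⟩ := SimpleGraph.Walk.mem_support_iff_exists_getVert.mp hw'
    obtain ⟨e5, e6⟩ := dist_getVert_geod hG hr (hsl.trans hr.le)
    rw [hs] at e5 e6
    have t1 := hG.dist_triangle (u := x) (v := p.getVert t) (w := w')
    have t2 := hG.dist_triangle (u := x) (v := w') (w := p.getVert t)
    rw [G.dist_comm (u := w') (v := p.getVert t)] at t2
    have t3 := hG.dist_triangle (u := p.getVert t) (v := w') (w := r.getVert t)
    have t4 : G.dist w' (r.getVert t) ≤ δ := by
      rcases le_total s t with h | h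
      · have := dist_getVert_succ hG r s (t - s)
        rw [show s + (t - s) = t by omega, hs] at this
        omega
      · have := dist_getVert_succ hG r t (s - t)
        rw [show t + (s - t) = s by omega, hs, G.dist_comm] at this
        omega
    omega

/-- twice the Gromov product -/
noncomputable def gp (G : SimpleGraph V) (x y z : V) : ℤ := G.dist x y + G.dist x z - G.dist y z

theorem gp_nonneg (hG : G.Connected) (x y z : V) : 0 ≤ gp G x y z := by
  have h := hG.dist_triangle (u := y) (v := x) (w := z)
  rw [G.dist_comm (u := y) (v := x)] at h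
  unfold gp
  omega

theorem gp_min (hG : G.Connected) {x : V} {δ : ℕ} (hx : AnchoredThin G x δ) (y w z : V) :
    min (gp G x y w) (gp G x w z) ≤ gp G x y z + (6 * δ + 2) := by
  obtain ⟨p, hp⟩ := hG.exists_walk_length_eq_dist x y
  obtain ⟨q, hq⟩ := hG.exists_walk_length_eq_dist x w
  obtain ⟨r, hr⟩ := hG.exists_walk_length_eq_dist x z
  have h0 := gp_nonneg hG x y z
  by_cases hT : min (gp G x y w) (gp G x w z) ≤ 2 * δ
  · omega
  push Not at hT
  obtain ⟨t, ht1, ht2⟩ : ∃ t : ℕ, 2 * (t : ℤ) + 2 * δ < min (gp G x y w) (gp G x w z) ∧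
      min (gp G x y w) (gp G x w z) ≤ 2 * (t : ℤ) + 2 * δ + 2 := by
    refine ⟨((min (gp G x y w) (gp G x w z) - 2 * δ - 1) / 2).toNat, ?_, ?_⟩ <;> omega
  have h1 : 2 * (t : ℤ) + 2 * δ < gp G x y w := lt_of_lt_of_le ht1 (min_le_left _ _)
  have h2 : 2 * (t : ℤ) + 2 * δ < gp G x w z := lt_of_lt_of_le ht1 (min_le_right _ _)
  unfold gp at h1 h2
  have f1 := fellow hG hx hp hq (t := t) (by omega)
  have f2 := fellow hG hx hq hr (t := t) (by omega)
  have htri1 := hG.dist_triangle (u := x) (v := y) (w := w)
  have htri2 := hG.dist_triangle (u := x) (v := w) (w := y)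
  rw [G.dist_comm (u := w) (v := y)] at htri2
  have htri3 := hG.dist_triangle (u := x) (v := w) (w := z)
  have htri4 := hG.dist_triangle (u := x) (v := z) (w := w)
  rw [G.dist_comm (u := z) (v := w)] at htri4
  have e1 := dist_getVert_geod hG hp (t := t) (by omega)
  have e2 := dist_getVert_geod hG hr (t := t) (by omega)
  have t1 := hG.dist_triangle (u := p.getVert t) (v := q.getVert t) (w := r.getVert t)
  have t2 := hG.dist_triangle (u := y) (v := p.getVert t) (w := r.getVert t)
  have t3 := hG.dist_triangle (u := y) (v := r.getVert t) (w := z)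
  rw [G.dist_comm (u := y) (v := p.getVert t)] at t2
  have : (G.dist y z : ℤ) ≤ (G.dist x y - t) + (G.dist x z - t) + 4 * δ := by omega
  have h3 : gp G x y z = G.dist x y + G.dist x z - G.dist y z := rfl
  omega

/-- the Gromov product inequality for an arbitrary base point -/
theorem gp_min_base (hG : G.Connected) {x : V} {δ : ℕ} (hx : AnchoredThin G x δ) (m y w z : V) :
    min (gp G m y w) (gp G m w z) ≤ gp G m y z + 2 * (6 * δ + 2) := by
  have a1 := gp_min hG hx y w z
  have a2 := gp_min hG hx y m z
  have a3 := gp_min hG hx w y m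
  have a4 := gp_min hG hx w z m
  unfold gp at *
  simp only [G.dist_comm (u := w) (v := y),
    G.dist_comm (u := m) (v := y),
    G.dist_comm (u := m) (v := w), G.dist_comm (u := m) (v := z)] at *
  omega

/-- the Gromov product of the ends of a chain -/
theorem gp_chain (hG : G.Connected) {x : V} {δ : ℕ} (hx : AnchoredThin G x δ) (m : V)
    (v : ℕ → V) (T : ℤ) (n : ℕ) (hT : ∀ i < n, T ≤ gp G m (v i) (v (i + 1))) (k : ℕ) :
    ∀ j l : ℕ, 1 ≤ l → l ≤ 2 ^ k → j + l ≤ n →
      T ≤ gp G m (v j) (v (j + l)) + 2 * (6 * δ + 2) * k := by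
  induction k with
  | zero =>
    intro j l h1 h2 h3
    have : l = 1 := by
      rw [pow_zero] at h2
      omega
    subst this
    have := hT j (by omega)
    simpa using this
  | succ k ih =>
    intro j l h1 h2 h3
    push_cast
    by_cases hl : l ≤ 2 ^ k
    · have := ih j l h1 hl h3
      nlinarith
    · push Not at hl
      rw [pow_succ] at h2
      have hpos : 0 < 2 ^ k := by positivity
      have i1 := ih j (2 ^ k) hpos le_rfl (by omega)
      have i2 := ih (j + 2 ^ k) (l - 2 ^ k) (by omega) (by omega) (by omega)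
      rw [show j + 2 ^ k + (l - 2 ^ k) = j + l by omega] at i2
      have i3 := gp_min_base hG hx m (v j) (v (j + 2 ^ k)) (v (j + l))
      rcases min_le_iff.mp i3 with i4 | i4 <;> nlinarith

/-- a geodesic stays logarithmically close to every walk with the same ends -/
theorem log_close (hG : G.Connected) {x : V} {δ : ℕ} (hx : AnchoredThin G x δ) {a c m : V}
    {p : G.Walk a c} (hp : p.length = G.dist a c) (hm : m ∈ p.support) (γ : G.Walk a c)
    {k R : ℕ} (hk : γ.length ≤ 2 ^ k) (hR : ∀ v ∈ γ.support, R ≤ G.dist m v) :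
    2 * R ≤ 2 * (6 * δ + 2) * k + 1 := by
  obtain ⟨s, hs, hsl⟩ := SimpleGraph.Walk.mem_support_iff_exists_getVert.mp hm
  obtain ⟨e1, e2⟩ := dist_getVert_geod hG hp (hsl.trans hp.le)
  rw [hs] at e1 e2
  have hgp : gp G m a c = 0 := by
    unfold gp
    rw [G.dist_comm (u := m) (v := a)]
    have := hsl.trans hp.le
    omega
  rcases Nat.eq_zero_or_pos γ.length with h0 | h0
  · have hac : a = c := SimpleGraph.Walk.eq_of_length_eq_zero h0
    subst hac
    have h1 := hR a γ.start_mem_support
    rw [SimpleGraph.dist_self] at hp e2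
    rw [hp] at hsl
    have : s = 0 := by omega
    rw [G.dist_comm] at h1
    omega
  · have h1 := gp_chain hG hx m γ.getVert (2 * R - 1) γ.length (fun i hi => by
      have g1 := hR _ (γ.getVert_mem_support i)
      have g2 := hR _ (γ.getVert_mem_support (i + 1))
      have g3 := dist_getVert_succ hG γ i 1
      unfold gp
      omega) k 0 γ.length h0 hk (by omega)
    rw [zero_add, γ.getVert_zero, γ.getVert_length, hgp] at h1
    have h2 : (2 * R : ℤ) ≤ 2 * (6 * δ + 2) * k + 1 := by linarith
    exact_mod_cast h2

end Q295.Anch
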