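import Pool.Agent.Y979.HV.Main
import Pool.Agent.Q295.Anch.Graph

/-!
# A grid configuration of nuclei produces far apart routes
-/

set_option autoImplicit false

open UpperHalfPlane Real MeasureTheory
open Pool.Agent.Y979.HV

namespace Q295.Anch

noncomputable section

/-- open Euclidean rectangle -/
def rct (a b c d : ℝ) : Set ℍ := {z | (a < z.re ∧ z.re < b) ∧ (c < z.im ∧ z.im < d)}

theorem isOpen_rct (a b c d : ℝ) : IsOpen (rct a b c d) := by
  have e : rct a b c d = ({z : ℍ | a < z.re} ∩ {z : ℍ | z.re < b}) ∩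
      ({z : ℍ | c < z.im} ∩ {z : ℍ | z.im < d}) := by
    ext z
    simp [rct]
  rw [e]
  exact ((isOpen_lt continuous_const UpperHalfPlane.continuous_re).inter
    (isOpen_lt UpperHalfPlane.continuous_re continuous_const)).inter
    ((isOpen_lt continuous_const UpperHalfPlane.continuous_im).inter
    (isOpen_lt UpperHalfPlane.continuous_im continuous_const))

theorem rct_param {a b c d : ℝ} (hab : a < b) (hc : 0 ≤ c) (hcd : c < d) :
    ∃ Φ : ℝ × ℝ → ℍ, Continuous Φ ∧ Function.Injective Φ ∧ Set.range Φ = rct a b c d := by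
  obtain ⟨g, hg, hgi, hgr⟩ := exists_arc hab
  obtain ⟨f, hf, hfi, hfr⟩ := exists_arc hcd
  have hgm : ∀ u, g u ∈ Set.Ioo a b := fun u => hgr ▸ Set.mem_range_self u
  have hfm : ∀ u, f u ∈ Set.Ioo c d := fun u => hfr ▸ Set.mem_range_self u
  have hfp : ∀ u, 0 < f u := fun u => lt_of_le_of_lt hc (hfm u).1
  refine ⟨fun p => ⟨⟨g p.1, f p.2⟩, hfp p.2⟩, ?_, ?_, ?_⟩
  · refine UpperHalfPlane.isEmbedding_coe.continuous_iff.mpr ?_
    have h4 : (UpperHalfPlane.coe ∘ fun p : ℝ × ℝ => (⟨⟨g p.1, f p.2⟩, hfp p.2⟩ : ℍ)) =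
        fun p : ℝ × ℝ => ((g p.1 : ℝ) : ℂ) + ((f p.2 : ℝ) : ℂ) * Complex.I := by
      funext p
      apply Complex.ext
      · simp
      · simp
    rw [h4]
    exact (Complex.continuous_ofReal.comp (hg.comp continuous_fst)).add
      ((Complex.continuous_ofReal.comp (hf.comp continuous_snd)).mul continuous_const)
  · intro p q h
    have h1 : g p.1 = g q.1 := congrArg UpperHalfPlane.re h
    have h2 : f p.2 = f q.2 := congrArg UpperHalfPlane.im h
    exact Prod.ext (hgi h1) (hfi h2)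
  · ext z
    constructor
    · rintro ⟨p, rfl⟩
      exact ⟨hgm p.1, hfm p.2⟩
    · rintro ⟨h1, h2⟩
      have m1 : z.re ∈ Set.range g := by rw [hgr]; exact h1
      have m2 : z.im ∈ Set.range f := by rw [hfr]; exact h2
      obtain ⟨u, hu⟩ := m1
      obtain ⟨v, hv⟩ := m2
      refine ⟨(u, v), ?_⟩
      apply UpperHalfPlane.ext
      apply Complex.ext
      · exact hu
      · exact hv

theorem rct_diff_preconnected {a b c d : ℝ} (hab : a < b) (hc : 0 ≤ c) (hcd : c < d) {B : Set ℍ}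
    (hB : B.Finite) : IsPreconnected (rct a b c d \ B) := by
  obtain ⟨Φ, hΦc, hΦi, hΦr⟩ := rct_param hab hc hcd
  have himg : rct a b c d \ B = Φ '' (Φ ⁻¹' B)ᶜ := by
    rw [← hΦr]
    ext z
    constructor
    · rintro ⟨⟨p, rfl⟩, h⟩
      exact ⟨p, h, rfl⟩
    · rintro ⟨p, h, rfl⟩
      exact ⟨⟨p, rfl⟩, h⟩
  rw [himg]
  have hcount : (Φ ⁻¹' B).Countable := (hB.preimage hΦi.injOn).countable
  have hrank : 1 < Module.rank ℝ (ℝ × ℝ) := by
    rw [rank_prod', Module.rank_self, one_add_one_eq_two]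
    exact Cardinal.one_lt_two
  exact (hcount.isConnected_compl_of_one_lt_rank hrank).isPreconnected.image Φ hΦc.continuousOn

theorem rct_infinite {a b c d : ℝ} (hab : a < b) (hc : 0 ≤ c) (hcd : c < d) :
    (rct a b c d).Infinite := by
  obtain ⟨Φ, hΦc, hΦi, hΦr⟩ := rct_param hab hc hcd
  rw [← hΦr]
  exact Set.infinite_range_of_injective hΦi

/-- union of two regions that overlap in a rectangle -/
theorem union_diff_preconnected {U W : Set ℍ} {a b c d : ℝ} (hab : a < b) (hc : 0 ≤ c)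
    (hcd : c < d) (hU : ∀ B : Set ℍ, B.Finite → IsPreconnected (U \ B))
    (hW : ∀ B : Set ℍ, B.Finite → IsPreconnected (W \ B)) (h1 : rct a b c d ⊆ U)
    (h2 : rct a b c d ⊆ W) (B : Set ℍ) (hB : B.Finite) : IsPreconnected ((U ∪ W) \ B) := by
  obtain ⟨z, hz, hzB⟩ := ((rct_infinite hab hc hcd).sdiff hB).nonempty
  rw [Set.union_sdiff_distrib]
  exact IsPreconnected.union z ⟨h1 hz, hzB⟩ ⟨h2 hz, hzB⟩ (hU B hB) (hW B hB)

/-! ### The grid -/

/-- cells of the grid -/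
def gcell (S : ℝ) (n : ℕ) (i : Fin n × Fin n) : Set ℍ :=
  box (Set.Ico (S / n * (i.1 : ℕ)) (S / n * ((i.1 : ℕ) + 1))) (S / n * (n + (i.2 : ℕ)))
    (S / n * (n + (i.2 : ℕ) + 1))

/-- every cell of the grid contains exactly one nucleus -/
def GridOK (A : Set ℍ) (S : ℝ) (n : ℕ) : Prop := ∀ i : Fin n × Fin n, (A ∩ gcell S n i).encard = 1

/-- the region covered by the grid -/
def big (S : ℝ) : Set ℍ := {z | (0 ≤ z.re ∧ z.re < S) ∧ (S ≤ z.im ∧ z.im < 2 * S)}

theorem exists_gcell {S : ℝ} (hS : 0 < S) {n : ℕ} (hn : 0 < n) {z : ℍ} (hz : z ∈ big S) :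
    ∃ i : Fin n × Fin n, z ∈ gcell S n i := by
  obtain ⟨⟨h1, h2⟩, h3, h4⟩ := hz
  have hn' : (0 : ℝ) < n := by exact_mod_cast hn
  have hSn : 0 < S / n := by positivity
  have hx0 : 0 ≤ z.re / (S / n) := by positivity
  have hx1 : z.re / (S / n) < n := by
    rw [div_lt_iff₀ hSn]
    field_simp
    exact h2
  have hy0 : (n : ℝ) ≤ z.im / (S / n) := by
    rw [le_div_iff₀ hSn]
    field_simp
    exact h3
  have hy1 : z.im / (S / n) < 2 * n := by
    rw [div_lt_iff₀ hSn]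
    field_simp
    linarith
  have hx2 : ⌊z.re / (S / n)⌋₊ < n := (Nat.floor_lt hx0).mpr hx1
  have hy2 : n ≤ ⌊z.im / (S / n)⌋₊ := Nat.le_floor hy0
  have hy3 : ⌊z.im / (S / n)⌋₊ < 2 * n := (Nat.floor_lt (hn'.le.trans hy0)).mpr (by push_cast; exact hy1)
  have hx3 := Nat.floor_le hx0
  have hx4 := Nat.lt_floor_add_one (z.re / (S / n))
  have hy4 := Nat.floor_le (hn'.le.trans hy0)
  have hy5 := Nat.lt_floor_add_one (z.im / (S / n))
  rw [le_div_iff₀ hSn] at hx3 hy4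
  rw [div_lt_iff₀ hSn] at hx4 hy5
  refine ⟨(⟨_, hx2⟩, ⟨⌊z.im / (S / n)⌋₊ - n, by omega⟩), ⟨?_, ?_⟩, ?_, ?_⟩
  · show S / n * (⌊z.re / (S / n)⌋₊ : ℝ) ≤ z.re
    linarith
  · show z.re < S / n * ((⌊z.re / (S / n)⌋₊ : ℝ) + 1)
    linarith
  · show S / n * (n + ((⌊z.im / (S / n)⌋₊ - n : ℕ) : ℝ)) ≤ z.im
    rw [Nat.cast_sub hy2]
    linarith
  · show z.im < S / n * (n + ((⌊z.im / (S / n)⌋₊ - n : ℕ) : ℝ) + 1)
    rw [Nat.cast_sub hy2]
    linarith

theorem dist_gcell {S : ℝ} (hS : 0 < S) {n : ℕ} (hn : 0 < n) {i : Fin n × Fin n} {z w : ℍ}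
    (hz : z ∈ gcell S n i) (hw : w ∈ gcell S n i) : dist z w ≤ 2 / n := by
  obtain ⟨⟨h1, h2⟩, h3, h4⟩ := hz
  obtain ⟨⟨g1, g2⟩, g3, g4⟩ := hw
  have hn' : (0 : ℝ) < n := by exact_mod_cast hn
  have hSn : 0 < S / n := by positivity
  have hSnn : S / n * n = S := by field_simp
  have hk : (0 : ℝ) ≤ S / n * (i.2 : ℕ) := by positivity
  have a1 : S ≤ z.im := by nlinarith
  have a2 : S ≤ w.im := by nlinarith
  have hd : dist (z : ℂ) w ≤ 2 * (S / n) := by
    rw [Complex.dist_eq]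
    refine (Complex.norm_le_abs_re_add_abs_im _).trans ?_
    have b1 : |((z : ℂ) - w).re| ≤ S / n := by
      rw [Complex.sub_re, UpperHalfPlane.coe_re, UpperHalfPlane.coe_re, abs_le]
      constructor <;> nlinarith
    have b2 : |((z : ℂ) - w).im| ≤ S / n := by
      rw [Complex.sub_im, UpperHalfPlane.coe_im, UpperHalfPlane.coe_im, abs_le]
      constructor <;> nlinarith
    linarith
  have hs : S ≤ √(z.im * w.im) := by
    rw [← Real.sqrt_sq hS.le]
    apply Real.sqrt_le_sqrt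
    nlinarith
  refine (UpperHalfPlane.dist_le_dist_coe_div_sqrt z w).trans ?_
  calc dist (z : ℂ) w / √(z.im * w.im) ≤ 2 * (S / n) / S :=
        div_le_div₀ (by positivity) hd hS hs
    _ = 2 / n := by field_simp

/-- coordinates of close points are close -/
theorem coord_close {S : ℝ} {z w : ℍ} (hw : w.im ≤ 2 * S) (hd : dist z w ≤ 1) :
    |z.re - w.re| ≤ 4 * S * dist z w ∧ |z.im - w.im| ≤ 4 * S * dist z w := by
  have h0 : 0 ≤ dist z w := dist_nonneg
  have h1 := UpperHalfPlane.dist_coe_le z w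
  have h2 := (abs_le.mp (Real.abs_exp_sub_one_le (x := dist z w) (by rwa [abs_of_nonneg h0]))).2
  rw [abs_of_nonneg h0] at h2
  have hwi := w.im_pos
  have h3 : dist (z : ℂ) w ≤ 4 * S * dist z w := by
    have a1 : w.im * (Real.exp (dist z w) - 1) ≤ w.im * (2 * dist z w) :=
      mul_le_mul_of_nonneg_left h2 hwi.le
    have a2 : w.im * (2 * dist z w) ≤ 2 * S * (2 * dist z w) :=
      mul_le_mul_of_nonneg_right hw (by linarith)
    linarith
  rw [Complex.dist_eq] at h3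
  have h4 := Complex.abs_re_le_norm ((z : ℂ) - w)
  have h5 := Complex.abs_im_le_norm ((z : ℂ) - w)
  rw [Complex.sub_re, UpperHalfPlane.coe_re, UpperHalfPlane.coe_re] at h4
  rw [Complex.sub_im, UpperHalfPlane.coe_im, UpperHalfPlane.coe_im] at h5
  exact ⟨h4.trans h3, h5.trans h3⟩

end

end Q295.Anch
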