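import Pool.Agent.Q295.Anch.Det

/-!
# The grid configuration occurs almost surely
-/

set_option autoImplicit false

open UpperHalfPlane Real MeasureTheory ProbabilityTheory
open scoped ENNReal
open Pool.Agent.Y979.HV

namespace Q295.Anch

noncomputable section

theorem measurableSet_gcell (S : ℝ) (n : ℕ) (i : Fin n × Fin n) : MeasurableSet (gcell S n i) :=
  measurableSet_box measurableSet_Ico _ _

/-- the area of a grid cell does not depend on the scale -/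
theorem volume_gcell {S : ℝ} (hS : 0 < S) {n : ℕ} (hn : 0 < n) (i : Fin n × Fin n) :
    volume (gcell S n i) = ENNReal.ofReal
      (1 / ((n : ℝ) + (i.2 : ℕ)) - 1 / ((n : ℝ) + (i.2 : ℕ) + 1)) := by
  have hn' : (0 : ℝ) < n := by exact_mod_cast hn
  have hSn : 0 < S / n := by positivity
  have hk : (0 : ℝ) ≤ (i.2 : ℕ) := Nat.cast_nonneg _
  unfold gcell
  rw [volume_box measurableSet_Ico (by positivity)
    (mul_le_mul_of_nonneg_left (by linarith) hSn.le), Real.volume_Ico,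
    ← ENNReal.ofReal_mul (by nlinarith)]
  congr 1
  have h1 : (n : ℝ) + (i.2 : ℕ) ≠ 0 := by positivity
  have h2 : (n : ℝ) + (i.2 : ℕ) + 1 ≠ 0 := by positivity
  have h3 : S ≠ 0 := hS.ne'
  have h4 : (n : ℝ) ≠ 0 := hn'.ne'
  field_simp
  ring

theorem area_pos {n : ℕ} (hn : 0 < n) (i : Fin n × Fin n) :
    0 < 1 / ((n : ℝ) + (i.2 : ℕ)) - 1 / ((n : ℝ) + (i.2 : ℕ) + 1) := by
  have hn' : (0 : ℝ) < n := by exact_mod_cast hn
  have hk : (0 : ℝ) ≤ (i.2 : ℕ) := Nat.cast_nonneg _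
  have := one_div_lt_one_div_of_lt (show (0 : ℝ) < (n : ℝ) + (i.2 : ℕ) by positivity)
    (show (n : ℝ) + (i.2 : ℕ) < (n : ℝ) + (i.2 : ℕ) + 1 by linarith)
  linarith

theorem disjoint_gcell {n : ℕ} (hn : 0 < n) {s t : ℕ} {i j : Fin n × Fin n}
    (h : (s, i) ≠ (t, j)) : Disjoint (gcell ((2 : ℝ) ^ s) n i) (gcell ((2 : ℝ) ^ t) n j) := by
  have hn' : (0 : ℝ) < n := by exact_mod_cast hn
  rw [Set.disjoint_left]
  rintro z ⟨⟨a1, a2⟩, a3, a4⟩ ⟨⟨b1, b2⟩, b3, b4⟩
  have range : ∀ (s : ℕ) (k : Fin n), (2 : ℝ) ^ s / n * (n + (k : ℕ)) ≤ z.im →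
      z.im < (2 : ℝ) ^ s / n * (n + (k : ℕ) + 1) → (2 : ℝ) ^ s ≤ z.im ∧ z.im < (2 : ℝ) ^ (s + 1) := by
    intro s k h1 h2
    have hs : (0 : ℝ) < (2 : ℝ) ^ s / n := by positivity
    have hk : ((k : ℕ) : ℝ) + 1 ≤ n := by exact_mod_cast k.2
    have hk0 : (0 : ℝ) ≤ (k : ℕ) := Nat.cast_nonneg _
    have e : (2 : ℝ) ^ s / n * n = (2 : ℝ) ^ s := by field_simp
    constructor
    · nlinarith
    · rw [pow_succ]
      nlinarith
  obtain ⟨r1, r2⟩ := range s i.2 a3 a4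
  obtain ⟨r3, r4⟩ := range t j.2 b3 b4
  have hst : s = t := by
    rcases lt_trichotomy s t with hlt | heq | hgt
    · have := pow_le_pow_right₀ (show (1 : ℝ) ≤ 2 by norm_num) (show s + 1 ≤ t from hlt)
      linarith
    · exact heq
    · have := pow_le_pow_right₀ (show (1 : ℝ) ≤ 2 by norm_num) (show t + 1 ≤ s from hgt)
      linarith
  subst hst
  have hs : (0 : ℝ) < (2 : ℝ) ^ s / n := by positivity
  have e1 : (i.1 : ℕ) = (j.1 : ℕ) := by
    have c1 : ((i.1 : ℕ) : ℝ) < (j.1 : ℕ) + 1 := lt_of_mul_lt_mul_left (a1.trans_lt b2) hs.le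
    have c2 : ((j.1 : ℕ) : ℝ) < (i.1 : ℕ) + 1 := lt_of_mul_lt_mul_left (b1.trans_lt a2) hs.le
    have c1' : (i.1 : ℕ) < (j.1 : ℕ) + 1 := by exact_mod_cast c1
    have c2' : (j.1 : ℕ) < (i.1 : ℕ) + 1 := by exact_mod_cast c2
    omega
  have e2 : (i.2 : ℕ) = (j.2 : ℕ) := by
    have c1 : (n : ℝ) + (i.2 : ℕ) < n + (j.2 : ℕ) + 1 := lt_of_mul_lt_mul_left (a3.trans_lt b4) hs.le
    have c2 : (n : ℝ) + (j.2 : ℕ) < n + (i.2 : ℕ) + 1 := lt_of_mul_lt_mul_left (b3.trans_lt a4) hs.le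
    have c1' : (i.2 : ℕ) < (j.2 : ℕ) + 1 := by
      have : ((i.2 : ℕ) : ℝ) < (j.2 : ℕ) + 1 := by linarith
      exact_mod_cast this
    have c2' : (j.2 : ℕ) < (i.2 : ℕ) + 1 := by
      have : ((j.2 : ℕ) : ℝ) < (i.2 : ℕ) + 1 := by linarith
      exact_mod_cast this
    omega
  exact h (Prod.ext rfl (Prod.ext (Fin.ext e1) (Fin.ext e2)))

variable {Ω : Type*} [MeasurableSpace Ω] {P : Measure Ω} [IsProbabilityMeasure P] {lam : ℝ}
  {Q : Ω → Set ℍ}

/-- exactly one nucleus in a grid cell -/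
def one (Q : Ω → Set ℍ) (n : ℕ) (t : ℕ × (Fin n × Fin n)) : Set Ω :=
  {ω | (Q ω ∩ gcell ((2 : ℝ) ^ t.1) n t.2).encard = 1}

omit [IsProbabilityMeasure P] in
theorem measurableSet_one (hQ : IsPoissonProcess P lam Q) (n : ℕ) (t : ℕ × (Fin n × Fin n)) :
    MeasurableSet (one Q n t) :=
  hQ.measurable_count _ (measurableSet_gcell _ n t.2) (MeasurableSet.of_discrete (s := {(1 : ℕ∞)}))

/-- the probability of one nucleus in a grid cell -/
def pr (lam : ℝ) (n : ℕ) (i : Fin n × Fin n) : ℝ≥0∞ :=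
  ENNReal.ofReal (Real.exp (-(lam * (1 / ((n : ℝ) + (i.2 : ℕ)) - 1 / ((n : ℝ) + (i.2 : ℕ) + 1)))) *
    (lam * (1 / ((n : ℝ) + (i.2 : ℕ)) - 1 / ((n : ℝ) + (i.2 : ℕ) + 1))))

theorem pr_pos (hlam : 0 < lam) {n : ℕ} (hn : 0 < n) (i : Fin n × Fin n) : pr lam n i ≠ 0 := by
  unfold pr
  have h1 := area_pos hn i
  rw [Ne, ENNReal.ofReal_eq_zero, not_le]
  exact mul_pos (Real.exp_pos _) (mul_pos hlam h1)

omit [IsProbabilityMeasure P] in
theorem measure_one (hQ : IsPoissonProcess P lam Q) {n : ℕ} (hn : 0 < n)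
    (t : ℕ × (Fin n × Fin n)) : P (one Q n t) = pr lam n t.2 := by
  have hv := volume_gcell (S := (2 : ℝ) ^ t.1) (by positivity) hn t.2
  have h := hQ.law_count (gcell ((2 : ℝ) ^ t.1) n t.2) (measurableSet_gcell _ n t.2)
    (by rw [hv]; exact ENNReal.ofReal_ne_top) 1
  have h1 := area_pos hn t.2
  rw [hv, ENNReal.toReal_ofReal h1.le] at h
  unfold one pr
  rw [Nat.cast_one] at h
  rw [h]
  congr 1
  simp

theorem measure_inter (hQ : IsPoissonProcess P lam Q) {n : ℕ} (hn : 0 < n)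
    (T : Finset (ℕ × (Fin n × Fin n))) :
    P (⋂ t ∈ T, one Q n t) = ∏ t ∈ T, pr lam n t.2 := by
  classical
  set e := T.equivFin with he
  have hind := hQ.indep_count T.card
    (fun i => gcell ((2 : ℝ) ^ ((e.symm i : ℕ × (Fin n × Fin n))).1) n
      ((e.symm i : ℕ × (Fin n × Fin n))).2)
    (fun i => measurableSet_gcell _ n _)
    (by
      intro i j hij
      refine disjoint_gcell hn ?_
      intro h
      apply hij
      apply e.symm.injective
      exact Subtype.ext h)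
  have h1 := hind.measure_inter_preimage_eq_mul Finset.univ (sets := fun _ => {(1 : ℕ∞)})
    (fun i _ => MeasurableSet.of_discrete)
  have h2 : (⋂ i ∈ (Finset.univ : Finset (Fin T.card)),
      (fun ω => (Q ω ∩ gcell ((2 : ℝ) ^ ((e.symm i : ℕ × (Fin n × Fin n))).1) n
      ((e.symm i : ℕ × (Fin n × Fin n))).2).encard) ⁻¹' {(1 : ℕ∞)}) = ⋂ t ∈ T, one Q n t := by
    ext ω
    simp only [Set.mem_iInter, Finset.mem_univ, true_imp_iff]
    constructor
    · intro h t ht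
      have := h (e ⟨t, ht⟩)
      rw [Equiv.symm_apply_apply] at this
      exact this
    · intro h i
      exact h _ (e.symm i).2
  rw [h2] at h1
  rw [h1, ← Finset.prod_coe_sort T (fun t => pr lam n t.2), ← e.symm.prod_comp]
  exact Finset.prod_congr rfl fun i _ => measure_one hQ hn _

theorem ae_grid (hQ : IsPoissonProcess P lam Q) (hlam : 0 < lam) {n : ℕ} (hn : 0 < n) :
    ∀ᵐ ω ∂P, ∃ s : ℕ, GridOK (Q ω) ((2 : ℝ) ^ s) n := by
  classical
  set E : ℕ → Set Ω := fun s => ⋂ i : Fin n × Fin n, one Q n (s, i) with hE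
  have hEm : ∀ s, MeasurableSet (E s) := fun s =>
    MeasurableSet.iInter fun i => measurableSet_one hQ n (s, i)
  have hF : ∀ F : Finset ℕ, P (⋂ s ∈ F, E s) = ∏ s ∈ F, ∏ i : Fin n × Fin n, pr lam n i := by
    intro F
    have h1 := measure_inter hQ hn (F ×ˢ (Finset.univ : Finset (Fin n × Fin n)))
    rw [Finset.prod_product] at h1
    rw [← h1]
    congr 1
    ext ω
    simp only [hE, Set.mem_iInter, Finset.mem_product, Finset.mem_univ, and_true]
    constructor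
    · rintro h ⟨s, i⟩ hs
      exact h s hs i
    · intro h s hs i
      exact h (s, i) hs
  have hE1 : ∀ s, P (E s) = ∏ i : Fin n × Fin n, pr lam n i := by
    intro s
    have := hF {s}
    simpa using this
  have hind : iIndepSet E P := by
    rw [iIndepSet_iff_meas_biInter hEm]
    intro F
    rw [hF F]
    exact Finset.prod_congr rfl fun s _ => (hE1 s).symm
  have hsum : (∑' s, P (E s)) = ∞ := by
    simp_rw [hE1]
    apply ENNReal.tsum_const_eq_top_of_ne_zero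
    exact Finset.prod_ne_zero_iff.mpr fun i _ => pr_pos hlam hn i
  have hlim := measure_limsup_eq_one hEm hind hsum
  have hmeas : MeasurableSet (Filter.limsup E Filter.atTop) := MeasurableSet.measurableSet_limsup hEm
  have hae : ∀ᵐ ω ∂P, ω ∈ Filter.limsup E Filter.atTop := by
    rwa [← prob_compl_eq_zero_iff hmeas, ] at hlim
  filter_upwards [hae] with ω hω
  rw [Filter.mem_limsup_iff_frequently_mem] at hω
  obtain ⟨s, hs⟩ := hω.exists
  exact ⟨s, fun i => Set.mem_iInter.mp hs i⟩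

/-- no constant works for the triangles with a fixed vertex -/
theorem not_anchoredThin {A : Set ℍ} (hA : LocFin A) (hne : A.Nonempty)
    (hgrid : ∀ n : ℕ, 0 < n → ∃ s : ℕ, GridOK A ((2 : ℝ) ^ s) n) (x : A) (δ : ℝ) :
    ¬ AnchoredThin (voronoiGraph A) x δ := by
  intro hthin
  obtain ⟨D, hD⟩ := exists_nat_ge δ
  have hthin' : AnchoredThin (voronoiGraph A) x (D : ℝ) := by
    intro y z p q r hp hq hr
    obtain ⟨h1, h2, h3⟩ := hthin y z p q r hp hq hr
    refine ⟨fun v hv => ?_, fun v hv => ?_, fun v hv => ?_⟩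
    · obtain ⟨w, hw, hd⟩ := h1 v hv
      exact ⟨w, hw, hd.trans hD⟩
    · obtain ⟨w, hw, hd⟩ := h2 v hv
      exact ⟨w, hw, hd.trans hD⟩
    · obtain ⟨w, hw, hd⟩ := h3 v hv
      exact ⟨w, hw, hd.trans hD⟩
  obtain ⟨K, hK⟩ : ∃ K : ℕ, K = 6 * D + 2 := ⟨_, rfl⟩
  obtain ⟨i, hi⟩ : ∃ i : ℕ, i = 20 * K + 1 := ⟨_, rfl⟩
  obtain ⟨T, hT⟩ : ∃ T : ℕ, T = 2 ^ i := ⟨_, rfl⟩
  have hpow : i + 1 ≤ T := by
    rw [hT]
    exact Nat.lt_two_pow_self
  obtain ⟨R, hR⟩ : ∃ R : ℕ, R = T * T := ⟨_, rfl⟩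
  have hRpos : 0 < R := by
    rw [hR]
    exact Nat.mul_pos (by omega) (by omega)
  obtain ⟨s, hs⟩ := hgrid (1000 * R) (by omega)
  obtain ⟨a, c, m, p, γ, hp, hm, hγ, hfar⟩ := exists_bad hA hne (by positivity) hRpos hs
  have hRR : R * R = 2 ^ (4 * i) := by
    rw [hR, hT, ← pow_add, ← pow_add]
    congr 1
    ring
  have hlen : γ.length ≤ 2 ^ (20 + 4 * i) := by
    refine hγ.trans ?_
    rw [pow_add, ← hRR]
    have : 1000 * R * (1000 * R) = 1000000 * (R * R) := by ring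
    rw [this]
    exact Nat.mul_le_mul_right _ (by norm_num)
  have h1 := log_close (connected_of_locFin hA hne) hthin' hp hm γ hlen hfar
  rw [← hK] at h1
  have h3 : (20 * K + 1 + 1) * (i + 1) ≤ R := by
    rw [hR]
    exact Nat.mul_le_mul (by omega) hpow
  nlinarith

end

end Q295.Anch
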